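import Pool.Agent.H22Z.IdC.Main

set_option autoImplicit false

universe u

namespace Pool.Agent.Results.MP_99407b_lc.ANotAxiomatizable

open Pool.Agent.H22Z.IdC

/-- No sentence of the infinitary logic has as its lattice models exactly the lattices of finitely
generated l-ideals of Archimedean l-groups with order-unit. -/
theorem result :
    ¬ ∃ φ : LForm.{u} PEmpty, ∀ (D : Type u) [Lattice D], φ.Sat D PEmpty.elim ↔ InCu D :=
  not_axiomatizable

end Pool.Agent.Results.MP_99407b_lc.ANotAxiomatizable
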